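import Pool.Agent.W102.TD.Defs

/-!
TD-FINA: the algebraic immunity part for the function of Tu and Deng.
-/

set_option autoImplicit false

namespace Pool.Agent.W915.TD

open Finset Pool.Agent.W102.TD

theorem fs_zz {m : ℕ} (u v : Fin m → ZMod 2) : fs (zz u v) = u := by
  funext i
  have hi : (i : ℕ) < m := i.2
  simp only [fs, zz]
  rw [dif_pos hi]

theorem sn_zz {m : ℕ} (u v : Fin m → ZMod 2) : sn (zz u v) = v := by
  funext i
  have hi : ¬ (m + (i : ℕ) < m) := by omega
  simp only [sn, zz]
  rw [dif_neg hi]
  congr 1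
  apply Fin.ext
  simp

theorem zz_fs_sn {m : ℕ} (v : Fin (2 * m) → ZMod 2) : zz (fs v) (sn v) = v := by
  funext i
  by_cases hi : (i : ℕ) < m
  · simp only [zz, fs]
    rw [dif_pos hi]
  · simp only [zz, sn]
    rw [dif_neg hi]
    congr 1
    apply Fin.ext
    simp only
    omega

theorem FINA (h1 : LOW) (h2 : REP) (h3 : UP) : Pool.Agent.W102.TD.FINA := by
  intro F _ _ _ m hm hTD hcard α hα hord e d
  have hff : ∀ x y : F, ff α e (zz (e x) (e y)) = f0 m α x y := by
    intro x y
    rw [ff, fs_zz, sn_zz, LinearEquiv.symm_apply_apply, LinearEquiv.symm_apply_apply]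
  constructor
  · rintro ⟨g, hg, hfg, c, hc, hgc⟩
    by_contra hd
    rw [not_le] at hd
    obtain ⟨H, hLow, hH⟩ := h2 F m hm hcard e c (fun S hS => lt_of_le_of_lt (hc S hS) hd)
    have hH' : ∀ x y : F, algebraMap (ZMod 2) F (g (zz (e x) (e y))) = ev m H x y := by
      intro x y
      rw [hgc]
      exact hH x y
    have hzero : ∀ i j, H i j = 0 := by
      refine h1 F m hm hTD hcard α hα hord H hLow ?_
      rcases hfg with h | h
      · left
        intro x y hxy
        have h4 := h (zz (e x) (e y))
        rw [hff, hxy, one_mul] at h4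
        rw [← hH', h4, map_zero]
      · right
        intro x y hxy
        have h4 := h (zz (e x) (e y))
        rw [hff, hxy, zero_add, one_mul] at h4
        rw [← hH', h4, map_zero]
    apply hg
    funext v
    have hv : v = zz (e (e.symm (fs v))) (e (e.symm (sn v))) := by
      rw [LinearEquiv.apply_symm_apply, LinearEquiv.apply_symm_apply, zz_fs_sn]
    have h5 : ev m H (e.symm (fs v)) (e.symm (sn v)) = 0 := by
      simp only [ev, hzero, zero_mul, Finset.sum_const_zero]
    rw [← hH', ← hv] at h5
    have h6 : Function.Injective (algebraMap (ZMod 2) F) := (algebraMap (ZMod 2) F).injective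
    exact h6 (by rw [h5]; simp)
  · intro hd
    obtain ⟨g, hg, hsn, c, hc, hgc⟩ := h3 m
    refine ⟨g, hg, Or.inl ?_, c, fun S hS => (hc S hS).trans hd, hgc⟩
    intro x
    by_cases hx : sn x = 0
    · have h7 : ff α e x = 0 := by
        rw [ff, hx, map_zero, f0, if_neg]
        rintro ⟨h8, -⟩
        exact h8 rfl
      rw [h7, zero_mul]
    · rw [hsn x hx, mul_zero]

end Pool.Agent.W915.TD
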